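import Pool.Agent.QUD.StmtsC

/-!
Squad QUD, row INC: area, perimeter and the sum of the corner terms of a convex quadrilateral are
determined by its Dirichlet spectrum.
-/

set_option autoImplicit false

namespace Pool.Agent.QUD.H9

open MeasureTheory Complex Filter Topology ProbabilityTheory Pool.Agent.H16Iso Pool.Agent.H62T
open Pool.Agent.H16F (CP len c0 qa Ar MatchStatement IsoStatement AlgStatement)
open Pool.Agent.AEU Pool.Agent.XQ

/-- the triangle over one side -/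
theorem dt_side (L : ℝ) (u p q : ℂ) (h : q - p = (L : ℂ) * (I * u)) : dt p q = L * ip u p := by
  have hre : q.re - p.re = L * (-u.im) := by
    have := congrArg Complex.re h
    simpa using this
  have him : q.im - p.im = L * u.re := by
    have := congrArg Complex.im h
    simpa using this
  have e1 : q.re = p.re - L * u.im := by linarith
  have e2 : q.im = p.im + L * u.re := by linarith
  simp only [dt, ip, e1, e2]
  ring

/-- the corner term -/
theorem c0_fk (cof : CofStmt) (β c : ℝ) (h : β = Real.arccos c) (h0 : 0 < β)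
    (h1 : β < Real.pi) : c0 β = fk c := by
  rw [cof β h0 h1, fk, Real.arccos_neg, ← h]

/-- area, perimeter and corner terms in the language of squad FINE -/
theorem one (cof : CofStmt) (cpc : CpcStmt) (iso : IsoStatement) (alg : AlgStatement)
    {a b c d : HP} (h : Cyc a b c d) :
    ∃ β : Fin 4 → ℝ, CP ![a.1, b.1, c.1, d.1] ![a.2, b.2, c.2, d.2] β ∧
      Poly ![a.1, b.1, c.1, d.1] ![a.2, b.2, c.2, d.2] = opn {a, b, c, d} ∧
      ar2 a b c d = 2 * Ar ![a.1, b.1, c.1, d.1] ![a.2, b.2, c.2, d.2] ∧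
      pr4 a b c d = ∑ i, len β ![a.2, b.2, c.2, d.2] i ∧
      kc4 a b c d = ∑ i, c0 (β i) ∧ 0 < ar2 a b c d := by
  obtain ⟨β, hcp, hpo, hb0, hb1, hb2, hb3, hl0, hl1, hl2, hl3, he0, he1, he2, he3⟩ := cpc a b c d h
  have hA : ar2 a b c d = 2 * Ar ![a.1, b.1, c.1, d.1] ![a.2, b.2, c.2, d.2] := by
    obtain ⟨-, hq, -, -⟩ := iso 4 _ _ β hcp
    obtain ⟨-, hs, -, -, -, -⟩ := alg 4 _ β hcp.toNm
    rw [hq, hs, Fin.sum_univ_four, hl0, hl1, hl2, hl3]
    have t0 := dt_side _ _ _ _ he0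
    have t1 := dt_side _ _ _ _ he1
    have t2 := dt_side _ _ _ _ he2
    have t3 := dt_side _ _ _ _ he3
    rw [h.vda.on₂] at t0
    rw [h.vab.on₂] at t1
    rw [h.vbc.on₂] at t2
    rw [h.vcd.on₂] at t3
    have e : ar2 a b c d = dt (vx d a) (vx a b) + dt (vx a b) (vx b c) + dt (vx b c) (vx c d)
        + dt (vx c d) (vx d a) := by
      simp only [ar2, dt, Complex.sub_re, Complex.sub_im]
      ring
    rw [e, t0, t1, t2, t3]
    simp
    ring
  refine ⟨β, hcp, hpo, hA, ?_, ?_, ?_⟩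
  · rw [Fin.sum_univ_four, hl0, hl1, hl2, hl3, pr4]
  · rw [Fin.sum_univ_four, c0_fk cof _ _ hb0 (hcp.pos 0) (hcp.lt 0),
      c0_fk cof _ _ hb1 (hcp.pos 1) (hcp.lt 1), c0_fk cof _ _ hb2 (hcp.pos 2) (hcp.lt 2),
      c0_fk cof _ _ hb3 (hcp.pos 3) (hcp.lt 3), kc4]
  · rw [hA]
    have := (iso 4 _ _ β hcp).1
    linarith

/-- **INC** -/
theorem inc (cof : CofStmt) (cpc : CpcStmt) (mat : MatchStatement) (iso : IsoStatement)
    (alg : AlgStatement) : IncStmt := by
  intro a b c d a' b' c' d' h h' hE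
  obtain ⟨β, hcp, hpo, hA, hP, hK, hpos⟩ := one cof cpc iso alg h
  obtain ⟨β', hcp', hpo', hA', hP', hK', -⟩ := one cof cpc iso alg h'
  obtain ⟨m1, m2, m3, -⟩ := mat 4 4 _ _ β _ _ β' hcp hcp' (by rw [hpo, hpo']; exact hE)
  exact ⟨by rw [hA, hA', m1], by rw [hP, hP', m2], by rw [hK, hK', m3], hpos⟩

end Pool.Agent.QUD.H9
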