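import Pool.Agent.QUD.StmtsU

/-!
Squad QUD, row UQB: no item of the type A.
-/

set_option autoImplicit false

namespace Pool.Agent.QUD.H9U

open MeasureTheory Filter Topology Real Set Pool.Agent.AEU Pool.Agent.AEU.H12 Pool.Agent.XQ
  Pool.Agent.XQ.U

open Classical in
/-- weight of an item with the smaller angle `m` -/
noncomputable def ww (m : ℝ) : ℝ := if m = π / 2 then 1 / 2 else 1

open Classical in
/-- weight at the angle `α` of an item with the angles `m ≤ π / 2 < M` -/
noncomputable def W (α M m : ℝ) : ℝ := if M = α then ww m else 0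

/-- constant of an item with the angles `m ≤ π / 2 < M` -/
noncomputable def C (M m : ℝ) : ℝ := ww m * Cs M m

/-- the angles of an item which is not of the type A -/
structure Good (M m : ℝ) : Prop where
  h1 : π / 2 < M
  h2 : M < π
  h3 : π - M < m
  h4 : m ≤ π / 2

theorem ww_cases {m : ℝ} (h : m ≤ π / 2) : (m = π / 2 ∧ ww m = 1 / 2) ∨ (m < π / 2 ∧ ww m = 1) := by
  rcases eq_or_lt_of_le h with h | h
  · exact Or.inl ⟨h, by simp [ww, h]⟩
  · exact Or.inr ⟨h, by simp [ww, h.ne]⟩

theorem ww_pos (m : ℝ) : 0 < ww m := by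
  unfold ww
  split_ifs <;> norm_num

theorem W_self (M m : ℝ) : W M M m = ww m := by simp [W]

theorem W_ne {α M : ℝ} (h : M ≠ α) (m : ℝ) : W α M m = 0 := by simp [W, h]

theorem W_nonneg (α M m : ℝ) : 0 ≤ W α M m := by
  unfold W
  split_ifs
  · exact (ww_pos m).le
  · exact le_rfl

/-- the constant determines the smaller angle -/
theorem Cs_inj (mce : MceStmt) {a b b' : ℝ} (h : Good a b) (h' : Good a b')
    (e : Cs a b = Cs a b') : b = b' := by
  rcases lt_trichotomy b b' with hl | hl | hl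
  · have := mce a b b' h.h1 h.h2 h.h3 hl h'.h4
    linarith
  · exact hl
  · have := mce a b' b h.h1 h.h2 h'.h3 hl h.h4
    linarith

/-- two single items -/
theorem L_SS (mce : MceStmt) {M m M' m' : ℝ} (h : Good M m) (h' : Good M' m')
    (hW : ∀ α, W α M m = W α M' m') (hC : C M m = C M' m') : M = M' ∧ m = m' := by
  have hM : M' = M := by
    by_contra hne
    have := hW M
    rw [W_self, W_ne hne] at this
    have := ww_pos m
    linarith
  subst hM
  have e := hW M'
  rw [W_self, W_self] at e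
  refine ⟨rfl, ?_⟩
  unfold C at hC
  rcases ww_cases h.h4 with ⟨h1, h2⟩ | ⟨h1, h2⟩ <;> rcases ww_cases h'.h4 with ⟨h3, h4⟩ | ⟨h3, h4⟩
  · rw [h1, h3]
  · rw [h2, h4] at e; norm_num at e
  · rw [h2, h4] at e; norm_num at e
  · rw [h2, h4, one_mul, one_mul] at hC
    exact Cs_inj mce h h' hC

/-- single item against two items of the first kind -/
theorem L_S1 (mce : MceStmt) {M m a b c : ℝ} (h : Good M m) (hb : Good a b) (hc : Good a c)
    (hW : ∀ α, W α M m = W α a b + W α a c) (hC : C M m = C a b + C a c) : False := by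
  have hM : M = a := by
    by_contra hne
    have := hW a
    rw [W_self, W_self, W_ne hne] at this
    have := ww_pos b
    have := ww_pos c
    linarith
  subst hM
  have e := hW M
  rw [W_self, W_self, W_self] at e
  unfold C at hC
  rcases ww_cases h.h4 with ⟨h1, h2⟩ | ⟨h1, h2⟩ <;>
    rcases ww_cases hb.h4 with ⟨h3, h4⟩ | ⟨h3, h4⟩ <;>
    rcases ww_cases hc.h4 with ⟨h5, h6⟩ | ⟨h5, h6⟩ <;> rw [h2, h4, h6] at e <;>
    try (norm_num at e; done)
  rw [h2, h4, h6, h3, h5] at hC
  have := mce M m (π / 2) h.h1 h.h2 h.h3 h1 le_rfl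
  linarith

/-- single item against two items of the second kind -/
theorem L_S2 (mce : MceStmt) {M m a b c : ℝ} (h : Good M m) (hb : Good b a) (hc : Good c a)
    (hW : ∀ α, W α M m = W α b a + W α c a) (hC : C M m = C b a + C c a) : False := by
  have hM : M = b := by
    by_contra hne
    have := hW b
    rw [W_self, W_ne hne] at this
    have := ww_pos a
    have := W_nonneg b c a
    linarith
  have hM' : M = c := by
    by_contra hne
    have := hW c
    rw [W_self, W_ne hne] at this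
    have := ww_pos a
    have := W_nonneg c b a
    linarith
  subst hM
  subst hM'
  exact L_S1 mce h hb hc hW hC

/-- two items of the first kind on both sides -/
theorem L_11 (mce : MceStmt) {a b c a' b' c' : ℝ} (hb : Good a b) (hc : Good a c)
    (hb' : Good a' b') (hc' : Good a' c')
    (hW : ∀ α, W α a b + W α a c = W α a' b' + W α a' c')
    (hC : C a b + C a c = C a' b' + C a' c') : AmbT a b c a' b' c' := by
  have hM : a' = a := by
    by_contra hne
    have := hW a
    rw [W_self, W_self, W_ne hne, W_ne hne] at this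
    have := ww_pos b
    have := ww_pos c
    linarith
  subst hM
  have e := hW a'
  rw [W_self, W_self, W_self, W_self] at e
  unfold C at hC
  rcases ww_cases hb.h4 with ⟨h1, h2⟩ | ⟨h1, h2⟩ <;>
    rcases ww_cases hc.h4 with ⟨h3, h4⟩ | ⟨h3, h4⟩ <;>
    rcases ww_cases hb'.h4 with ⟨h5, h6⟩ | ⟨h5, h6⟩ <;>
    rcases ww_cases hc'.h4 with ⟨h7, h8⟩ | ⟨h7, h8⟩ <;> rw [h2, h4, h6, h8] at e hC <;>
    try (norm_num at e; done)
  · exact Or.inl ⟨rfl, Or.inl ⟨h1.trans h5.symm, h3.trans h7.symm⟩⟩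
  · refine Or.inl ⟨rfl, Or.inl ⟨h1.trans h5.symm, Cs_inj mce hc hc' ?_⟩⟩
    rw [h1, h5] at hC
    linarith
  · refine Or.inl ⟨rfl, Or.inr ⟨h1.trans h7.symm, Cs_inj mce hc hb' ?_⟩⟩
    rw [h1, h7] at hC
    linarith
  · refine Or.inl ⟨rfl, Or.inr ⟨Cs_inj mce hb hc' ?_, h3.trans h5.symm⟩⟩
    rw [h3, h5] at hC
    linarith
  · refine Or.inl ⟨rfl, Or.inl ⟨Cs_inj mce hb hb' ?_, h3.trans h7.symm⟩⟩
    rw [h3, h7] at hC
    linarith
  · exact Or.inr (Or.inr (Or.inl ⟨rfl, hb.h1, h1, h3, h5, h7, by linarith⟩))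

/-- two items of the second kind on both sides, ordered -/
theorem L_22' (mce : MceStmt) {a b c a' : ℝ} (hb : Good b a) (hc : Good c a)
    (hb' : Good b a') (hc' : Good c a')
    (hW : ∀ α, W α b a + W α c a = W α b a' + W α c a')
    (hC : C b a + C c a = C b a' + C c a') : a = a' := by
  have e : ww a = ww a' := by
    by_cases hbc : c = b
    · subst hbc
      have := hW c
      rw [W_self, W_self] at this
      linarith
    · have := hW b
      rw [W_self, W_self, W_ne hbc, W_ne hbc] at this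
      linarith
  unfold C at hC
  rcases ww_cases hb.h4 with ⟨h1, h2⟩ | ⟨h1, h2⟩ <;>
    rcases ww_cases hb'.h4 with ⟨h3, h4⟩ | ⟨h3, h4⟩
  · rw [h1, h3]
  · rw [h2, h4] at e; norm_num at e
  · rw [h2, h4] at e; norm_num at e
  · rw [h2, h4] at hC
    rcases lt_trichotomy a a' with hl | hl | hl
    · have := mce b a a' hb.h1 hb.h2 hb.h3 hl hb'.h4
      have := mce c a a' hc.h1 hc.h2 hc.h3 hl hc'.h4
      linarith
    · exact hl
    · have := mce b a' a hb.h1 hb.h2 hb'.h3 hl hb.h4
      have := mce c a' a hc.h1 hc.h2 hc'.h3 hl hc.h4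
      linarith

/-- two items of the second kind on both sides -/
theorem L_22 (mce : MceStmt) {a b c a' b' c' : ℝ} (hb : Good b a) (hc : Good c a)
    (hb' : Good b' a') (hc' : Good c' a')
    (hW : ∀ α, W α b a + W α c a = W α b' a' + W α c' a')
    (hC : C b a + C c a = C b' a' + C c' a') : AmbT a b c a' b' c' := by
  have k1 : b' = b ∨ c' = b := by
    by_contra hne
    push Not at hne
    have := hW b
    rw [W_self, W_ne hne.1, W_ne hne.2] at this
    have := ww_pos a
    have := W_nonneg b c a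
    linarith
  have k2 : b' = c ∨ c' = c := by
    by_contra hne
    push Not at hne
    have := hW c
    rw [W_self, W_ne hne.1, W_ne hne.2] at this
    have := ww_pos a
    have := W_nonneg c b a
    linarith
  have k3 : b = b' ∨ c = b' := by
    by_contra hne
    push Not at hne
    have := hW b'
    rw [W_self, W_ne hne.1, W_ne hne.2] at this
    have := ww_pos a'
    have := W_nonneg b' c' a'
    linarith
  have k4 : b = c' ∨ c = c' := by
    by_contra hne
    push Not at hne
    have := hW c'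
    rw [W_self, W_ne hne.1, W_ne hne.2] at this
    have := ww_pos a'
    have := W_nonneg c' b' a'
    linarith
  have k : (b' = b ∧ c' = c) ∨ (b' = c ∧ c' = b) := by
    rcases k1 with k1 | k1
    · rcases k2 with k2 | k2
      · rcases k4 with k4 | k4
        · exact Or.inl ⟨k1, k4.symm.trans (k1.symm.trans k2)⟩
        · exact Or.inl ⟨k1, k4.symm⟩
      · exact Or.inl ⟨k1, k2⟩
    · rcases k2 with k2 | k2
      · exact Or.inr ⟨k2, k1⟩
      · rcases k3 with k3 | k3
        · exact Or.inl ⟨k3.symm, k2⟩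
        · exact Or.inr ⟨k3.symm, k1⟩
  rcases k with ⟨rfl, rfl⟩ | ⟨rfl, rfl⟩
  · exact Or.inl ⟨L_22' mce hb hc hb' hc' hW hC, Or.inl ⟨rfl, rfl⟩⟩
  · refine Or.inl ⟨L_22' mce hb hc hc' hb' (fun α => ?_) ?_, Or.inr ⟨rfl, rfl⟩⟩
    · have := hW α
      linarith
    · linarith

/-- the first kind against the second kind -/
theorem L_12 {a b c a' b' c' : ℝ} (hb : Good a b) (hc : Good a c)
    (hb' : Good b' a') (hc' : Good c' a')
    (hW : ∀ α, W α a b + W α a c = W α b' a' + W α c' a')
    (hC : C a b + C a c = C b' a' + C c' a') : Exc a b c a' b' c' := by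
  have k1 : a = b' := by
    by_contra hne
    have := hW b'
    rw [W_self, W_ne hne, W_ne hne] at this
    have := ww_pos a'
    have := W_nonneg b' c' a'
    linarith
  have k2 : a = c' := by
    by_contra hne
    have := hW c'
    rw [W_self, W_ne hne, W_ne hne] at this
    have := ww_pos a'
    have := W_nonneg c' b' a'
    linarith
  subst k1
  subst k2
  have e := hW a
  rw [W_self, W_self, W_self] at e
  unfold C at hC
  rcases ww_cases hb.h4 with ⟨h1, h2⟩ | ⟨h1, h2⟩ <;>
    rcases ww_cases hc.h4 with ⟨h3, h4⟩ | ⟨h3, h4⟩ <;>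
    rcases ww_cases hb'.h4 with ⟨h5, h6⟩ | ⟨h5, h6⟩ <;> rw [h2, h4, h6] at e hC <;>
    try (norm_num at e; done)
  · exact Or.inr (Or.inr (Or.inl ⟨hb.h1, h1, h3, h5, rfl, rfl⟩))
  · exact Or.inr (Or.inr (Or.inr ⟨hb.h1, h1, h3, h5, rfl, rfl, by linarith⟩))

/-- the larger angle first -/
theorem item1 {x y : ℝ} (h : Kil (x, y)) (ho : ¬ obt (x, y)) (hx : π / 2 < x) :
    Good x y ∧ (∀ α, wt α (x, y) = W α x y) ∧ ct (x, y) = C x y := by
  obtain ⟨h1, h2, h3, h4, h5⟩ := h
  simp only at h1 h2 h3 h4 h5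
  have hy : y ≤ π / 2 := by
    by_contra hne
    exact ho ⟨hx, not_le.mp hne⟩
  have hxy : y ≤ x := by linarith
  have hom : om (x, y) = ww y := by
    unfold om ww
    rw [if_neg ho]
    simp only [min_eq_right hxy]
  refine ⟨⟨hx, h2, by linarith, hy⟩, fun α => ?_, ?_⟩
  · unfold wt W
    simp only [max_eq_left hxy, hom]
  · unfold ct C
    simp only [max_eq_left hxy, min_eq_right hxy, hom]

/-- the larger angle second -/
theorem item2 {x y : ℝ} (h : Kil (x, y)) (ho : ¬ obt (x, y)) (hx : x ≤ π / 2) :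
    Good y x ∧ (∀ α, wt α (x, y) = W α y x) ∧ ct (x, y) = C y x := by
  obtain ⟨h1, h2, h3, h4, h5⟩ := h
  simp only at h1 h2 h3 h4 h5
  have hy : π / 2 < y := by linarith
  have hxy : x ≤ y := by linarith
  have hom : om (x, y) = ww x := by
    unfold om ww
    rw [if_neg ho]
    simp only [min_eq_left hxy]
  refine ⟨⟨hy, h4, by linarith, hx⟩, fun α => ?_, ?_⟩
  · unfold wt W
    simp only [max_eq_right hxy, hom]
  · unfold ct C
    simp only [max_eq_right hxy, min_eq_left hxy, hom]

/-- the four kinds of lists -/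
theorem norm4 (l : List (ℝ × ℝ)) (h : Itm l) (ho : oA l = []) :
    (l = [] ∧ ∀ α, (l.map (wt α)).sum = 0) ∨
    (∃ p M m, l = [p] ∧ (p = (M, m) ∨ p = (m, M)) ∧ Good M m ∧
      (∀ α, (l.map (wt α)).sum = W α M m) ∧ (l.map ct).sum = C M m) ∨
    (∃ a b c, l = [(a, b), (a, c)] ∧ Good a b ∧ Good a c ∧
      (∀ α, (l.map (wt α)).sum = W α a b + W α a c) ∧ (l.map ct).sum = C a b + C a c) ∨
    ∃ a b c, l = [(a, b), (a, c)] ∧ Good b a ∧ Good c a ∧
      (∀ α, (l.map (wt α)).sum = W α b a + W α c a) ∧ (l.map ct).sum = C b a + C c a := by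
  have hob : ∀ p ∈ l, ¬ obt p := by
    intro p hp hpo
    have hm : p ∈ oA l := by
      unfold oA
      exact List.mem_filter.mpr ⟨hp, by simpa using hpo⟩
    rw [ho] at hm
    simp at hm
  rcases h with rfl | ⟨a, b, rfl, hk⟩ | ⟨a, b, c, rfl, hk, hk', -⟩
  · exact Or.inl ⟨rfl, fun α => by simp⟩
  · right
    left
    have h1 := hob (a, b) (by simp)
    rcases lt_or_ge (π / 2) a with ha | ha
    · obtain ⟨g, w, k⟩ := item1 hk h1 ha
      exact ⟨_, a, b, rfl, Or.inl rfl, g, fun α => by simp [w], by simp [k]⟩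
    · obtain ⟨g, w, k⟩ := item2 hk h1 ha
      exact ⟨_, b, a, rfl, Or.inr rfl, g, fun α => by simp [w], by simp [k]⟩
  · right
    right
    have h1 := hob (a, b) (by simp)
    have h2 := hob (a, c) (by simp)
    rcases lt_or_ge (π / 2) a with ha | ha
    · obtain ⟨g, w, k⟩ := item1 hk h1 ha
      obtain ⟨g', w', k'⟩ := item1 hk' h2 ha
      exact Or.inl ⟨a, b, c, rfl, g, g', fun α => by simp [w, w'], by simp [k, k']⟩
    · obtain ⟨g, w, k⟩ := item2 hk h1 ha
      obtain ⟨g', w', k'⟩ := item2 hk' h2 ha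
      exact Or.inr ⟨a, b, c, rfl, g, g', fun α => by simp [w, w'], by simp [k, k']⟩

/-- **UQB** -/
theorem uqb (mce : MceStmt) : UqbStmt := by
  intro l l' h h' ho ho' hW hC
  rcases norm4 l h ho with ⟨rfl, e1⟩ | ⟨p, M, m, rfl, hp, g, e1, e2⟩ |
      ⟨a, b, c, rfl, g, g2, e1, e2⟩ | ⟨a, b, c, rfl, g, g2, e1, e2⟩ <;>
    rcases norm4 l' h' ho' with ⟨rfl, e1'⟩ | ⟨p', M', m', rfl, hp', g', e1', e2'⟩ |
      ⟨a', b', c', rfl, g', g2', e1', e2'⟩ | ⟨a', b', c', rfl, g', g2', e1', e2'⟩
  · exact Or.inl ⟨rfl, rfl⟩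
  · exfalso
    have := hW M'
    rw [e1, e1', W_self] at this
    have := ww_pos m'
    linarith
  · exfalso
    have := hW a'
    rw [e1, e1', W_self, W_self] at this
    have := ww_pos b'
    have := ww_pos c'
    linarith
  · exfalso
    have := hW b'
    rw [e1, e1', W_self] at this
    have := ww_pos a'
    have := W_nonneg b' c' a'
    linarith
  · exfalso
    have := hW M
    rw [e1, e1', W_self] at this
    have := ww_pos m
    linarith
  · obtain ⟨rfl, rfl⟩ := L_SS mce g g' (fun α => by rw [← e1, ← e1', hW α])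
      (by rw [← e2, ← e2', hC])
    refine Or.inr (Or.inl ⟨p, p', rfl, rfl, ?_⟩)
    rcases hp with rfl | rfl <;> rcases hp' with rfl | rfl
    · exact Or.inl rfl
    · exact Or.inr rfl
    · exact Or.inr rfl
    · exact Or.inl rfl
  · exact (L_S1 mce g g' g2' (fun α => by rw [← e1, ← e1', hW α])
      (by rw [← e2, ← e2', hC])).elim
  · exact (L_S2 mce g g' g2' (fun α => by rw [← e1, ← e1', hW α])
      (by rw [← e2, ← e2', hC])).elim
  · exfalso
    have := hW a
    rw [e1, e1', W_self, W_self] at this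
    have := ww_pos b
    have := ww_pos c
    linarith
  · exact (L_S1 mce g' g g2 (fun α => by rw [← e1, ← e1', hW α])
      (by rw [← e2, ← e2', hC])).elim
  · exact Or.inr (Or.inr ⟨a, b, c, a', b', c', rfl, rfl, L_11 mce g g2 g' g2'
      (fun α => by rw [← e1, ← e1', hW α]) (by rw [← e2, ← e2', hC])⟩)
  · exact Or.inr (Or.inr ⟨a, b, c, a', b', c', rfl, rfl, Or.inr (Or.inr (Or.inr (Or.inl
      (L_12 g g2 g' g2' (fun α => by rw [← e1, ← e1', hW α]) (by rw [← e2, ← e2', hC])))))⟩)
  · exfalso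
    have := hW b
    rw [e1, e1', W_self] at this
    have := ww_pos a
    have := W_nonneg b c a
    linarith
  · exact (L_S2 mce g' g g2 (fun α => by rw [← e1, ← e1', hW α])
      (by rw [← e2, ← e2', hC])).elim
  · exact Or.inr (Or.inr ⟨a, b, c, a', b', c', rfl, rfl, Or.inr (Or.inr (Or.inr (Or.inr
      (L_12 g' g2' g g2 (fun α => by rw [← e1, ← e1', hW α]) (by rw [← e2, ← e2', hC])))))⟩)
  · exact Or.inr (Or.inr ⟨a, b, c, a', b', c', rfl, rfl, L_22 mce g g2 g' g2'
      (fun α => by rw [← e1, ← e1', hW α]) (by rw [← e2, ← e2', hC])⟩)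

end Pool.Agent.QUD.H9U
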